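import Pool.Agent.H27.Laminar

namespace Pool.Agent.Results.MP_939d63_gt.NotResiduallyFinite

open Pool.Agent.H27.Laminar

/-- A finitely generated group of orientation preserving homeomorphisms of the circle, preserving a
very full lamination (with an ideal triangle as a gap), that is not residually finite. -/
theorem result : ∃ (G : Subgroup (Circle ≃ₜ Circle)) (L : Set (Circle × Circle)),
    G.FG ∧ (∀ φ ∈ G, OrientationPreserving φ) ∧ IsLamination L ∧ VeryFull L ∧
    IsGap L (convexHull ℝ ({1, -1, -Complex.I} : Set ℂ)) ∧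
    (∀ φ ∈ G, ∀ a b, (a, b) ∈ L ↔ (φ a, φ b) ∈ L) ∧
    ∃ g : G, g ≠ 1 ∧ ∀ (Q : Type) [Group Q] [Finite Q] (ψ : G →* Q), ψ g = 1 :=
  main

end Pool.Agent.Results.MP_939d63_gt.NotResiduallyFinite
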